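import Pool.Agent.Helper41.PS.Goals
import Pool.Agent.Helper57.TW.Main
import Pool.Agent.Helper61.CG.A1

/-!
# Project PS (MP_74f661_nt), packet PNT: primes in a fixed class
-/

set_option autoImplicit false

open Finset

open scoped Classical

namespace Pool.Agent.Helper12.PS.PNT

open Pool.Agent.Helper41.PS

open Pool.Agent.Helper88.CG (tw pw th)

theorem tw_le (x n : ℕ) : tw x n ≤ 1 := by
  unfold Pool.Agent.Helper88.CG.tw
  refine max_le zero_le_one ?_
  have h1 : 0 ≤ |Real.log (4 * n / x)| / Real.log 4 :=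
    div_nonneg (abs_nonneg _) (Real.log_nonneg (by norm_num))
  linarith

theorem pw_le {x n : ℕ} (hx : n ≤ x) : pw x n ≤ if n.Prime then 1 else 0 := by
  unfold Pool.Agent.Helper88.CG.pw
  by_cases hp : n.Prime
  · rw [if_pos hp, if_pos hp]
    have h2 : (2 : ℝ) ≤ n := by exact_mod_cast hp.two_le
    have h3 : (n : ℝ) ≤ x := by exact_mod_cast hx
    have h4 : 0 < Real.log x := Real.log_pos (by linarith)
    have h5 : Real.log n / Real.log x ≤ 1 := by
      rw [div_le_one h4]
      exact Real.log_le_log (by linarith) h3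
    have h6 : 0 ≤ Real.log n / Real.log x := div_nonneg (Real.log_nonneg (by linarith)) h4.le
    exact mul_le_one₀ (tw_le x n) h6 h5
  · rw [if_neg hp, if_neg hp]

theorem th_le (x q a : ℕ) :
    th x q a ≤ (((Icc 1 x).filter (fun p => p.Prime ∧ p ≡ a [MOD q])).card : ℝ) := by
  unfold Pool.Agent.Helper88.CG.th
  have h1 : ∀ n ∈ (Icc 1 x).filter (fun n => n ≡ a [MOD q]), pw x n ≤ if n.Prime then 1 else 0 := by
    intro n hn
    rw [mem_filter, mem_Icc] at hn
    exact pw_le hn.1.2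
  refine (sum_le_sum h1).trans (le_of_eq ?_)
  rw [sum_boole, filter_filter]
  congr 2
  ext n
  simp only [mem_filter, and_comm]

theorem th_ge {x : ℕ} {s : ℝ} (h : s ≤ ∑ n ∈ Ioc (x / 32) x, pw x (n + 0)) : s ≤ th x 1 0 := by
  refine h.trans ?_
  unfold Pool.Agent.Helper88.CG.th
  refine sum_le_sum_of_subset_of_nonneg ?_ ?_
  · intro n hn
    rw [mem_Ioc] at hn
    rw [mem_filter, mem_Icc]
    exact ⟨⟨by omega, hn.2⟩, Nat.modEq_one⟩
  · intro n _ _
    exact Pool.Agent.Helper61.CG.pw_nonneg n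

theorem t : StmtPNT := by
  intro q a hq haq
  obtain ⟨c, hc, x1, hx1⟩ := Pool.Agent.Helper61.CG.a1
  obtain ⟨x2, hx2⟩ := Pool.Agent.Helper57.TW.mSW q 1 2 hq
  have hφ : (0 : ℝ) < (Nat.totient q : ℝ) := by exact_mod_cast Nat.totient_pos.2 hq
  refine ⟨c / (2 * (Nat.totient q : ℝ)), by positivity, max (max x1 x2) (⌈Real.exp (2 / c)⌉₊ + 2),
    ?_⟩
  intro x hx
  have hxa : x1 ≤ x := (le_max_left _ _).trans ((le_max_left _ _).trans hx)
  have hxb : x2 ≤ x := (le_max_right _ _).trans ((le_max_left _ _).trans hx)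
  have hxc : ⌈Real.exp (2 / c)⌉₊ + 2 ≤ x := (le_max_right _ _).trans hx
  have hx3 : Real.exp (2 / c) ≤ x := by
    have h1 := Nat.le_ceil (Real.exp (2 / c))
    have h2 : ((⌈Real.exp (2 / c)⌉₊ + 2 : ℕ) : ℝ) ≤ x := by exact_mod_cast hxc
    push_cast at h2
    linarith
  have hxp : (0 : ℝ) < x := (Real.exp_pos _).trans_le hx3
  have hlog : 2 / c ≤ Real.log x := by
    rw [← Real.log_exp (2 / c)]
    exact Real.log_le_log (Real.exp_pos _) hx3
  have hlp : 0 < Real.log x := lt_of_lt_of_le (by positivity) hlog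
  have hA := th_ge (hx1 x hxa 0 (by push_cast; positivity))
  obtain ⟨p0, hp0, -, -, hS⟩ := hx2 x hxb
  have hB := hS 1 squarefree_one (fun h => hp0.one_lt.ne' (Nat.dvd_one.1 h)) (by
    push_cast
    exact Real.one_le_exp (by positivity)) a (by rwa [mul_one])
  rw [mul_one] at hB
  have hB2 := (abs_le.1 hB).1
  have hC := th_le x q a
  have h1 : c * (x / Real.log x) / (Nat.totient q : ℝ) ≤ th x 1 0 / (Nat.totient q : ℝ) :=
    div_le_div_of_nonneg_right hA hφ.le
  have h2 : (x : ℝ) / Real.log x ^ 2 / (Nat.totient q : ℝ) ≤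
      c / (2 * (Nat.totient q : ℝ)) * (x / Real.log x) := by
    have h3 : (x : ℝ) / Real.log x ^ 2 = 1 / Real.log x * (x / Real.log x) := by
      field_simp
    have h4 : 1 / Real.log x ≤ c / 2 := by
      rw [div_le_iff₀ hlp]
      rw [div_le_iff₀ hc] at hlog
      linarith
    have h5 : 1 / Real.log x * (x / Real.log x) ≤ c / 2 * (x / Real.log x) :=
      mul_le_mul_of_nonneg_right h4 (by positivity)
    rw [h3]
    refine (div_le_div_of_nonneg_right h5 hφ.le).trans (le_of_eq ?_)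
    field_simp
  have h3 : c * (x / Real.log x) / (Nat.totient q : ℝ) =
      2 * (c / (2 * (Nat.totient q : ℝ)) * (x / Real.log x)) := by
    field_simp
  rw [h3] at h1
  linarith

end Pool.Agent.Helper12.PS.PNT
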